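import Pool.Agent.Helper49.NF.Goals

/-! Packet NF-RED: reduction to families of middle size. -/

set_option autoImplicit false

namespace Pool.Agent.Helper86.NF

open Finset
open Pool.Agent.Helper47.SR (Grp mv lev wt Ew W IsInv up dn StarAt HalfStarAt Goal_SYM Goal_STAN
  Goal_TR2 Goal_KKA)
open Pool.Agent.Helper49.NF

theorem W_eq {n : ℕ} (G : Grp n) (F : Finset (Finset (Fin n))) : W G F = #F + Ew G F := by
  unfold W Ew
  rw [Finset.sum_add_distrib]
  simp

theorem card_lev (n m : ℕ) : #(lev n m) = n.choose m := by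
  rw [Finset.card_powersetCard, Finset.card_univ, Fintype.card_fin]

theorem goal_RED (hSTB : Goal_STB) (hSB : Goal_SB) (hSYM : Goal_SYM) (hSTAN : Goal_STAN)
    (hTR2 : Goal_TR2) (hKKA : Goal_KKA) : Goal_RED := by
  intro n K f m G hG hm hn hE H
  refine hSYM n G m ?_
  intro S Y hS hY hSi hYi hhalf hlt
  have hF : Fam G m S Y := ⟨hS, hY, hSi, hYi, hlt⟩
  have hYc : #Y ≤ n.choose m := by
    rw [← card_lev]
    exact Finset.card_le_card hY
  have hn1 : 1 ≤ n := hG.n1
  have hK1 : 1 ≤ K := hG.K1
  by_cases hd : W G (dn m Y) < 2 ^ (m + 1)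
  · have h1 := hTR2 n G m Y hY hYi hd
    have h2 := hSTAN n G m (by omega) S hS hSi
    omega
  · rw [not_lt] at hd
    have h1 : W G (dn m Y) ≤ K * (m + 1) * #(dn m Y) := by
      unfold W
      have h2 : ∀ B ∈ dn m Y, 1 + wt G B ≤ K * (m + 1) := by
        intro B hB
        have h3 : B ∈ lev n (m + 1) := (Finset.mem_filter.mp hB).1
        have h4 : #B = m + 1 := (Finset.mem_powersetCard.mp h3).2
        have h5 := (hSTB n K f G hG).2.2.1 B (Finset.card_pos.mp (by omega))
        rwa [h4] at h5
      calc ∑ A ∈ dn m Y, (1 + wt G A) ≤ ∑ _A ∈ dn m Y, K * (m + 1) := Finset.sum_le_sum h2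
        _ = K * (m + 1) * #(dn m Y) := by rw [Finset.sum_const, smul_eq_mul, mul_comm]
    have h2 : (m + 1) * #(dn m Y) ≤ (n - m) * #Y := hKKA n m n hm (by omega) Y hY hYc
    have hYW : #Y ≤ W G Y := by rw [W_eq]; omega
    have h3 : W G (dn m Y) ≤ K * n * W G Y := by
      calc W G (dn m Y) ≤ K * (m + 1) * #(dn m Y) := h1
        _ = K * ((m + 1) * #(dn m Y)) := by ring
        _ ≤ K * ((n - m) * #Y) := Nat.mul_le_mul_left _ h2
        _ ≤ K * (n * W G Y) := Nat.mul_le_mul_left _ (Nat.mul_le_mul (Nat.sub_le _ _) hYW)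
        _ = K * n * W G Y := by ring
    have hKn : 0 < K * n := Nat.mul_pos hK1 hn1
    have h4 : K * n * W G Y < K * n * W G S := Nat.mul_lt_mul_of_pos_left hlt hKn
    have h5 : 2 ^ (m + 1) < K * n * W G S := lt_of_le_of_lt (hd.trans h3) h4
    by_cases hA : TT G m ≤ W G Y
    · have hc : #Y ≤ (n - 1).choose m := by
        have h6 : 2 * W G Y ≤ n.choose m + Ew G (lev n m) := by
          rw [W_eq G (lev n m), card_lev] at hhalf
          exact hhalf
        have h7 : 2 * n * #Y ≤ (n + 2) * n.choose m := by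
          calc 2 * n * #Y = n * (2 * #Y) := by ring
            _ ≤ n * (n.choose m + Ew G (lev n m)) := Nat.mul_le_mul_left _ (by omega)
            _ = n * n.choose m + n * Ew G (lev n m) := by ring
            _ ≤ n * n.choose m + 2 * n.choose m := Nat.add_le_add_left hE _
            _ = (n + 2) * n.choose m := by ring
        obtain ⟨p, hp⟩ : ∃ p, n = p + 1 := ⟨n - 1, by omega⟩
        subst hp
        have h8 : p.choose m * (p + 1) = (p + 1).choose m * (p + 1 - m) :=
          Nat.choose_mul_succ_eq p m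
        rw [Nat.add_sub_cancel]
        have h9 : 2 * (p + 1) * #Y ≤ 2 * (p + 1) * p.choose m := by
          calc 2 * (p + 1) * #Y ≤ (p + 1 + 2) * (p + 1).choose m := h7
            _ ≤ (2 * (p + 1 - m)) * (p + 1).choose m := Nat.mul_le_mul_right _ (by omega)
            _ = 2 * ((p + 1).choose m * (p + 1 - m)) := by ring
            _ = 2 * (p.choose m * (p + 1)) := by rw [h8]
            _ = 2 * (p + 1) * p.choose m := by ring
        exact Nat.le_of_mul_le_mul_left h9 (by omega)
      refine hSB n m (n - 1) G S Y hm hn (by omega) (by omega) hF hc ?_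
      have h6 : n - (n - 1) = 1 := by omega
      rw [h6, one_mul]
      exact hA.trans (Nat.le_add_right _ _)
    · rw [not_le] at hA
      by_cases hB : TT G m ≤ (n - 2 * m - 1) * (W G S - W G Y)
      · refine hSB n m n G S Y hm hn (by omega) le_rfl hF hYc ?_
        exact hB.trans (Nat.le_add_left _ _)
      · rw [not_le] at hB
        refine H S Y hF hd h5 ?_
        have h6 : W G S - W G Y ≤ (n - 2 * m - 1) * (W G S - W G Y) :=
          Nat.le_mul_of_pos_left _ (by omega)
        omega

end Pool.Agent.Helper86.NF
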